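import Pool.Agent.Lib.MP_fb3619_al.Iface

/-! HMAP: the collineations `L_k`. -/

universe u

namespace Pool.Agent.FourGp.H12

open Equiv

section basic

variable {G : Type u} [Group G] {H K : Subgroup G} {a b c : G} (h : Cfg H K a b c)

include h

theorem sq_mem {g : G} (hg : g ∈ H) : g * g ∈ K := by
  have key : ∀ d : G, d ∈ H → d * d = 1 → g * d ∈ K → g * g ∈ K := by
    intro d hd hdd hgd
    have h1 := K.mul_mem hgd (h.nor d hd _ hgd)
    have h2 : g * d * (d⁻¹ * (g * d) * d) = g * g * (d * d) := by group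
    rw [h2, hdd, mul_one] at h1
    exact h1
  rcases h.top g hg with e | e | e | e
  · exact K.mul_mem e e
  · exact key a h.ha h.haa e
  · exact key b h.hb h.hbb e
  · exact key c h.hc h.hcc e

theorem eq_one_of_sq {k : G} (hk : k ∈ K) (hkk : k * k = 1) : k = 1 := by
  obtain ⟨n, hn⟩ := h.odd k hk
  rw [pow_succ, pow_mul, pow_two, hkk, one_pow, one_mul] at hn
  exact hn

theorem odd_order {k : G} (hk : k ∈ K) : ∃ j, orderOf k = 2 * j + 1 := by
  obtain ⟨n, hn⟩ := h.odd k hk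
  have h1 : orderOf k ∣ 2 * n + 1 := orderOf_dvd_of_pow_eq_one hn
  have h2 : Odd (2 * n + 1) := ⟨n, rfl⟩
  obtain ⟨j, hj⟩ := Odd.of_dvd_nat h2 h1
  exact ⟨j, hj⟩

/-- `iota g` in terms of the square. -/
theorem iota_eq {g : G} (hg : g ∈ H) : ∃ q ∈ K, iota g = q * g ∧ iota g = g * q ∧
    iota g * iota g = 1 := by
  obtain ⟨j, hj⟩ := odd_order h (sq_mem h hg)
  refine ⟨(g * g) ^ j, K.pow_mem (sq_mem h hg) j, ?_, ?_, ?_⟩
  · unfold iota
    rw [hj, pow_succ, pow_mul, pow_two]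
  · unfold iota
    rw [hj, pow_succ', pow_mul, pow_two]
  · unfold iota
    rw [← (Commute.refl g).mul_pow, pow_orderOf_eq_one]

theorem iota_pt {g : G} (hg : g ∈ H) (hgK : g ∉ K) : IsPt H (iota g) := by
  obtain ⟨q, hq, h1, -, h3⟩ := iota_eq h hg
  refine ⟨?_, h3, ?_⟩
  · rw [h1]
    exact H.mul_mem (h.le hq) hg
  · intro e
    rw [e] at h1
    apply hgK
    have : g = q⁻¹ := by rw [eq_inv_iff_mul_eq_one]; exact (mul_eq_one_comm.1 h1.symm)
    rw [this]
    exact K.inv_mem hq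

theorem iota_comm {g x : G} (hx : x * g * x = g⁻¹) (hxx : x * x = 1) (hg : g ∈ H) :
    x * iota g = iota g * x := by
  obtain ⟨q, hq, h1, -, h3⟩ := iota_eq h hg
  have hx' : x⁻¹ = x := inv_eq_of_mul_eq_one_right hxx
  have h4 : x * iota g * x = (iota g)⁻¹ := by
    unfold iota
    rw [← inv_pow, ← hx]
    conv_rhs => rw [show x * g * x = x * g * x⁻¹ by rw [hx']]
    rw [conj_pow, hx']
  have h5 : (iota g)⁻¹ = iota g := inv_eq_of_mul_eq_one_right h3
  rw [h5] at h4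
  calc x * iota g = x * iota g * (x * x) := by rw [hxx, mul_one]
    _ = x * iota g * x * x := by group
    _ = iota g * x := by rw [h4]

theorem iota_unique {g y : G} (hg : g ∈ H) (hyy : y * y = 1) (hc : y * g = g * y)
    (hK : y * g ∈ K) : iota g = y := by
  have hcm : Commute y (y * g) := by
    show y * (y * g) = y * g * y
    rw [mul_assoc y g y, hc]
  have h1 : g = y * (y * g) := by rw [← mul_assoc, hyy, one_mul]
  have h2 : y * g * (y * g) = g * g := by
    calc y * g * (y * g) = y * (g * y) * g := by group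
      _ = y * y * (g * g) := by rw [← hc]; group
      _ = g * g := by rw [hyy, one_mul]
  obtain ⟨j, hj⟩ := odd_order h (sq_mem h hg)
  have h3 : (y * g) ^ orderOf (g * g) = 1 := by
    refine eq_one_of_sq h (K.pow_mem hK _) ?_
    rw [← (Commute.refl (y * g)).mul_pow, h2, pow_orderOf_eq_one]
  unfold iota
  conv_lhs => rw [h1]
  rw [show y * (y * g) * (y * (y * g)) = g * g by rw [← h1], hcm.mul_pow, h3, mul_one, hj,
    pow_succ, pow_mul, pow_two, hyy, one_pow, one_mul]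

omit h in
theorem iota_self {y : G} (hyy : y * y = 1) : iota y = y := by
  unfold iota
  rw [hyy, orderOf_one, pow_one]

theorem conj_mem {x q : G} (hx : x ∈ H) (hxx : x * x = 1) (hq : q ∈ K) : x * q * x ∈ K := by
  have h1 := h.nor x hx q hq
  rwa [inv_eq_of_mul_eq_one_right hxx] at h1

theorem pt_notMem (x : Pt H) : x.1 ∉ K := fun e => x.2.2.2 (eq_one_of_sq h e x.2.2.1)

theorem pt_mul_notMem (x : Pt H) {k : G} (hk : k ∈ K) : x.1 * k ∉ K := fun e =>
  pt_notMem h x (by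
    have := K.mul_mem e (K.inv_mem hk)
    rwa [mul_assoc, mul_inv_cancel, mul_one] at this)

/-- The map `H_k`. -/
noncomputable def Hm {k : G} (hk : k ∈ K) (x : Pt H) : Pt H :=
  ⟨iota (x.1 * k), iota_pt h (H.mul_mem x.2.1 (h.le hk)) (pt_mul_notMem h x hk)⟩

theorem Hm_st {k : G} (hk : k ∈ K) (x : Pt H) : (inc H K).st x (Hm h hk x) := by
  obtain ⟨q, hq, h1, -, -⟩ := iota_eq h (H.mul_mem x.2.1 (h.le hk))
  show x.1 * iota (x.1 * k) ∈ K
  rw [h1]
  have h2 : x.1 * (q * (x.1 * k)) = x.1 * q * x.1 * k := by group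
  rw [h2]
  exact K.mul_mem (conj_mem h x.2.1 x.2.2.1 hq) hk

end basic

section main

variable {G : Type u} [Group G] {H K : Subgroup G} {a b c : G}

theorem Hm_bij (hD : DecoS.{u}) (h : Cfg H K a b c) {k : G} (hk : k ∈ K) :
    Function.Bijective (Hm h hk) := by
  have key : ∀ (z : Pt H) (w s : G), w ∈ K → s ∈ K → w * z.1 = z.1 * w → z.1 * s * z.1 = s⁻¹ →
      k⁻¹ = w * s → (∀ w' ∈ K, ∀ s' ∈ K, w' * z.1 = z.1 * w' → z.1 * s' * z.1 = s'⁻¹ →
        k⁻¹ = w' * s' → w' = w) → ∀ x : Pt H, Hm h hk x = z → x.1 = z.1 * s := by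
    intro z w s hw hs h1 h2 h3 h4 x hx
    have hz : iota (x.1 * k) = z.1 := congrArg Subtype.val hx
    obtain ⟨q, hq, h5, h6, h7⟩ := iota_eq h (H.mul_mem x.2.1 (h.le hk))
    rw [hz] at h5 h6 h7
    -- `u = z x k = q⁻¹ ...`
    have hzi : z.1⁻¹ = z.1 := inv_eq_of_mul_eq_one_right z.2.2.1
    have h8 : z.1 * (x.1 * k) = x.1 * k * z.1 := by
      nth_rewrite 1 [h6]
      nth_rewrite 1 [h5]
      group
    have hu : z.1 * (x.1 * k) ∈ K := by
      have h9 : q * (x.1 * k) * (x.1 * k) ∈ K := by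
        rw [mul_assoc]
        exact K.mul_mem hq (sq_mem h (H.mul_mem x.2.1 (h.le hk)))
      rwa [← h5] at h9
    obtain ⟨u, hu'⟩ : ∃ u, u = z.1 * (x.1 * k) := ⟨_, rfl⟩
    rw [← hu'] at hu
    have hxu : x.1 = z.1 * (u * k⁻¹) := by
      rw [hu']
      calc x.1 = (z.1 * z.1) * x.1 := by rw [z.2.2.1, one_mul]
        _ = _ := by group
    have huz : u * z.1 = z.1 * u := by
      rw [hu', mul_assoc z.1, ← h8]
    have h10 : z.1 * (u * k⁻¹) * z.1 = (u * k⁻¹)⁻¹ := by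
      rw [eq_inv_iff_mul_eq_one, mul_assoc, ← hxu]
      exact x.2.2.1
    have h11 : u⁻¹ = w := by
      refine h4 u⁻¹ (K.inv_mem hu) (u * k⁻¹) (K.mul_mem hu (K.inv_mem hk)) ?_ h10 (by group)
      have h12 : Commute u z.1 := huz
      exact h12.inv_left
    rw [hxu, show u = w⁻¹ by rw [← h11, inv_inv], h3]
    group
  constructor
  · intro x y hxy
    obtain ⟨w, hw, s, hs, h1, h2, h3, h4⟩ := hD G H K a b c h (Hm h hk y) k⁻¹ (K.inv_mem hk)
    exact Subtype.ext ((key _ w s hw hs h1 h2 h3 h4 x hxy).trans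
      (key _ w s hw hs h1 h2 h3 h4 y rfl).symm)
  · intro z
    obtain ⟨w, hw, s, hs, h1, h2, h3, -⟩ := hD G H K a b c h z k⁻¹ (K.inv_mem hk)
    have hsq : z.1 * s * (z.1 * s) = 1 := by
      rw [← mul_assoc, h2, inv_mul_cancel]
    refine ⟨⟨z.1 * s, H.mul_mem z.2.1 (h.le hs), hsq, fun e => pt_mul_notMem h z hs
      (by rw [e]; exact K.one_mem)⟩, Subtype.ext ?_⟩
    show iota (z.1 * s * k) = z.1
    have h5 : z.1 * s * k = z.1 * w⁻¹ := by
      have : k = s⁻¹ * w⁻¹ := by rw [← mul_inv_rev, ← h3, inv_inv]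
      rw [this]
      group
    have hc : Commute z.1 w⁻¹ := by
      have : Commute z.1 w := h1.symm
      exact this.inv_right
    rw [h5]
    refine iota_unique h (H.mul_mem z.2.1 (h.le (K.inv_mem hw))) z.2.2.1 ?_ ?_
    · calc z.1 * (z.1 * w⁻¹) = z.1 * (w⁻¹ * z.1) := by rw [hc.eq]
        _ = z.1 * w⁻¹ * z.1 := by group
    · rw [← mul_assoc, z.2.2.1, one_mul]
      exact K.inv_mem hw

/-- `x ⟂ H_k y` if and only if `(x y k)² = 1`. -/
theorem perp_Hm (hI : InvtS.{u}) (hR : RebaS.{u}) (hG : GeomS.{u}) (h : Cfg H K a b c) {k : G}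
    (hk : k ∈ K) {x y : Pt H} (hxy : ¬ (inc H K).st x y) :
    (inc H K).perp x (Hm h hk y) ↔ x.1 * y.1 * k * (x.1 * y.1 * k) = 1 := by
  have hg := (hG G H K a b c h).1
  have hyk : y.1 * k ∈ H := H.mul_mem y.2.1 (h.le hk)
  obtain ⟨q, hq, h1, h2, h3⟩ := iota_eq h hyk
  have hcom : iota (y.1 * k) * (y.1 * k) = y.1 * k * iota (y.1 * k) := by
    nth_rewrite 1 [h2]
    nth_rewrite 1 [h1]
    group
  constructor
  · intro hp
    have hcfg := hR G H K a b c h _ _ (hg.perp_symm _ _ hp)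
    have hu : iota (y.1 * k) * (y.1 * k) ∈ K := by
      have h9 : q * (y.1 * k) * (y.1 * k) ∈ K := by
        rw [mul_assoc]
        exact K.mul_mem hq (sq_mem h hyk)
      rwa [← h1] at h9
    have h4 := hI G H K _ _ _ hcfg _ hu (by
      show iota (y.1 * k) * (iota (y.1 * k) * (y.1 * k)) =
        iota (y.1 * k) * (y.1 * k) * iota (y.1 * k)
      rw [mul_assoc _ (y.1 * k), ← hcom])
    have hp1 : x.1 * iota (y.1 * k) = iota (y.1 * k) * x.1 := hp.1
    -- x (yk) x = (yk)⁻¹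
    have h5 : x.1 * (y.1 * k) * x.1 = (y.1 * k)⁻¹ := by
      have h6 : iota (y.1 * k) * (x.1 * (iota (y.1 * k) * (y.1 * k)) * x.1) =
          x.1 * (y.1 * k) * x.1 := by
        calc iota (y.1 * k) * (x.1 * (iota (y.1 * k) * (y.1 * k)) * x.1)
            = iota (y.1 * k) * x.1 * iota (y.1 * k) * (y.1 * k) * x.1 := by group
          _ = x.1 * (iota (y.1 * k) * iota (y.1 * k)) * (y.1 * k) * x.1 := by
              rw [← hp1]; group
          _ = _ := by rw [h3, mul_one, mul_assoc]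
      rw [← h6, h4, mul_inv_rev]
      have h7 : (iota (y.1 * k))⁻¹ = iota (y.1 * k) := inv_eq_of_mul_eq_one_right h3
      rw [h7]
      have h8 : Commute (iota (y.1 * k)) (y.1 * k)⁻¹ := by
        have : Commute (iota (y.1 * k)) (y.1 * k) := hcom
        exact this.inv_right
      calc iota (y.1 * k) * ((y.1 * k)⁻¹ * iota (y.1 * k))
          = iota (y.1 * k) * (y.1 * k)⁻¹ * iota (y.1 * k) := by group
        _ = (y.1 * k)⁻¹ * (iota (y.1 * k) * iota (y.1 * k)) := by rw [h8.eq]; group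
        _ = (y.1 * k)⁻¹ := by rw [h3, mul_one]
    calc x.1 * y.1 * k * (x.1 * y.1 * k) = (x.1 * (y.1 * k) * x.1) * (y.1 * k) := by group
      _ = 1 := by rw [h5, inv_mul_cancel]
  · intro e
    have h5 : x.1 * (y.1 * k) * x.1 = (y.1 * k)⁻¹ := by
      rw [eq_inv_iff_mul_eq_one, ← e]
      group
    refine ⟨iota_comm h h5 x.2.2.1 hyk, fun e' => hxy ?_⟩
    have h6 : x = Hm h hk y := Subtype.ext e'
    rw [h6]
    exact hg.st_symm _ _ (Hm_st h hk y)

theorem Hm_perp (hI : InvtS.{u}) (hR : RebaS.{u}) (hG : GeomS.{u}) (h : Cfg H K a b c) {k : G}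
    (hk : k ∈ K) (hk' : k⁻¹ ∈ K) (x y : Pt H) :
    (inc H K).perp x (Hm h hk' y) ↔ (inc H K).perp (Hm h hk x) y := by
  have hg := (hG G H K a b c h).1
  by_cases hxy : (inc H K).st x y
  · refine iff_of_false (fun hp => ?_) (fun hp => ?_)
    · exact hg.perp_st _ _ hp (hg.st_trans _ _ _ hxy (Hm_st h hk' y))
    · exact hg.perp_st _ _ hp (hg.st_trans _ _ _ (hg.st_symm _ _ (Hm_st h hk x)) hxy)
  · have hyx : ¬ (inc H K).st y x := fun e => hxy (hg.st_symm _ _ e)
    rw [hg.perp_comm (x := Hm h hk x), perp_Hm hI hR hG h hk' hxy, perp_Hm hI hR hG h hk hyx]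
    have e1 : x.1⁻¹ = x.1 := inv_eq_of_mul_eq_one_right x.2.2.1
    have e2 : y.1⁻¹ = y.1 := inv_eq_of_mul_eq_one_right y.2.2.1
    have e3 : (x.1 * y.1 * k⁻¹)⁻¹ = k * (y.1 * x.1) := by
      rw [mul_inv_rev, mul_inv_rev, inv_inv, e1, e2]
    constructor
    · intro e
      have e4 : k * (y.1 * x.1) * (k * (y.1 * x.1)) = 1 := by
        rw [← e3, ← mul_inv_rev, e, inv_one]
      calc y.1 * x.1 * k * (y.1 * x.1 * k) = k⁻¹ * (k * (y.1 * x.1) * (k * (y.1 * x.1))) * k := by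
            group
        _ = 1 := by rw [e4]; group
    · intro e
      have e4 : k * (y.1 * x.1) * (k * (y.1 * x.1)) = 1 := by
        calc k * (y.1 * x.1) * (k * (y.1 * x.1)) = k * (y.1 * x.1 * k * (y.1 * x.1 * k)) * k⁻¹ := by
              group
          _ = 1 := by rw [e]; group
      have e5 : (x.1 * y.1 * k⁻¹ * (x.1 * y.1 * k⁻¹))⁻¹ = 1 := by
        rw [mul_inv_rev, e3, e4]
      rw [← inv_inv (x.1 * y.1 * k⁻¹ * (x.1 * y.1 * k⁻¹)), e5, inv_one]

end main

/-- HMAP. -/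
theorem hmap (hI : InvtS.{u}) (hR : RebaS.{u}) (hG : GeomS.{u}) (hD : DecoS.{u}) :
    HmapS.{u} := by
  intro G _ H K a b c h k hk
  have hg := (hG G H K a b c h).1
  have hk' : k⁻¹ ∈ K := K.inv_mem hk
  let p : Perm (Pt H) := Equiv.ofBijective _ (Hm_bij hD h hk)
  let q : Perm (Pt H) := Equiv.ofBijective _ (Hm_bij hD h hk')
  have hp : ∀ x, p x = Hm h hk x := fun _ => rfl
  have hq : ∀ x, q x = Hm h hk' x := fun _ => rfl
  have hq' : ∀ x, Hm h hk' (q⁻¹ x) = x := fun x => q.apply_symm_apply x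
  refine ⟨(p, q⁻¹), ⟨fun x => Hm_st h hk x, fun x => ?_, fun x y => ?_⟩, fun x => rfl, fun x => ?_⟩
  · have h1 := Hm_st h hk' (q⁻¹ x)
    rw [hq'] at h1
    exact hg.st_symm _ _ h1
  · have h1 := Hm_perp hI hR hG h hk hk' x (q⁻¹ y)
    rw [hq'] at h1
    exact h1
  · exact congrArg Subtype.val (hq' x)

end Pool.Agent.FourGp.H12
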