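import Pool.Agent.Lib.MP_fb3619_al.H12.Hmap

/-! TAU: special f-maps are induced by products of the collineations `L_k`. -/

universe u

namespace Pool.Agent.FourGp.H12

open Equiv

variable {G : Type u} [Group G] {H K : Subgroup G} {a b c : G}

/-- If `x` is a point, `k` in `K` commutes with the point `v` perpendicular to `x`, then `x k` is a
point perpendicular to `v`. -/
theorem pt_mul (hI : InvtS.{u}) (hR : RebaS.{u}) (hG : GeomS.{u}) (h : Cfg H K a b c)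
    {v x : Pt H} (hp : (inc H K).perp v x) {k : G} (hk : k ∈ K) (hv : v.1 * k = k * v.1) :
    x.1 * k * x.1 = k⁻¹ ∧ ∃ y : Pt H, y.1 = x.1 * k ∧ (inc H K).perp v y ∧ (inc H K).st x y := by
  have hg := (hG G H K a b c h).1
  have h1 := hI G H K _ _ _ (hR G H K a b c h v x hp) k hk hv
  have h2 : x.1 * k * (x.1 * k) = 1 := by
    rw [← mul_assoc, h1, inv_mul_cancel]
  have h3 : (inc H K).st x ⟨x.1 * k, H.mul_mem x.2.1 (h.le hk), h2, fun e =>
      pt_mul_notMem h x hk (by rw [e]; exact K.one_mem)⟩ := by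
    show x.1 * (x.1 * k) ∈ K
    rw [← mul_assoc, x.2.2.1, one_mul]
    exact hk
  refine ⟨h1, _, rfl, ⟨?_, fun e => ?_⟩, h3⟩
  · show v.1 * (x.1 * k) = x.1 * k * v.1
    have h4 : v.1 * x.1 = x.1 * v.1 := hp.1
    rw [← mul_assoc, h4, mul_assoc, hv, ← mul_assoc]
  · refine hg.perp_st _ _ hp (hg.st_trans _ _ _ ?_ (hg.st_symm _ _ h3))
    show v.1 * (x.1 * k) ∈ K
    rw [show v.1 = x.1 * k from e, h2]
    exact K.one_mem

theorem tau (hI : InvtS.{u}) (hR : RebaS.{u}) (hG : GeomS.{u}) (hH : HmapS.{u}) :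
    TauS.{u} := by
  intro G _ H K a b c h v x u w m hvx hu ν hν ξ hξ hvν hxξ hw hm
  obtain ⟨hg, hcr, hcr'⟩ := hG G H K a b c h
  have vv := v.2.2.1
  have xx := x.2.2.1
  have uu := u.2.2.1
  have hvx1 : v.1 * x.1 = x.1 * v.1 := hvx.1
  have vi : v.1⁻¹ = v.1 := inv_eq_of_mul_eq_one_right vv
  have xi : x.1⁻¹ = x.1 := inv_eq_of_mul_eq_one_right xx
  have ui : u.1⁻¹ = u.1 := inv_eq_of_mul_eq_one_right uu
  -- incidences
  have hvu1 : v.1 * u.1 = u.1 * v.1 := by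
    rw [hu, mul_assoc, ← hvx1]
  have hxu1 : x.1 * u.1 = u.1 * x.1 := by
    rw [hu, ← mul_assoc, ← hvx1]
  have hvu : (inc H K).perp v u := by
    refine ⟨hvu1, fun e => x.2.2.2 ?_⟩
    have : v.1 * v.1 = v.1 * (v.1 * x.1) := by rw [← hu]; exact congrArg _ e
    rw [← mul_assoc, vv, one_mul] at this
    exact this.symm
  have hxu : (inc H K).perp x u := by
    refine ⟨hxu1, fun e => v.2.2.2 ?_⟩
    have : x.1 * x.1 = v.1 * x.1 * x.1 := by rw [← hu]; exact congrArg (· * x.1) e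
    rw [mul_assoc v.1, xx, mul_one] at this
    exact this.symm
  have hξ' : ξ⁻¹ ∈ K := K.inv_mem hξ
  have hxξ' : x.1 * ξ⁻¹ = ξ⁻¹ * x.1 := by
    have : Commute x.1 ξ := hxξ
    exact this.inv_right
  obtain ⟨hum, m', hm', hvm, hsm⟩ := pt_mul hI hR hG h hvu hν hvν
  obtain rfl : m' = m := Subtype.ext (hm'.trans hm.symm)
  obtain ⟨huw, w', hw', hxw, hsw⟩ := pt_mul hI hR hG h hxu hξ' hxξ'
  obtain rfl : w' = w := Subtype.ext (hw'.trans hw.symm)
  obtain ⟨t, ht, hs⟩ := hg.label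
  have i1 := hg.perp_st _ _ hvx
  have i2 := hg.perp_st _ _ hvu
  have i3 := hg.perp_st _ _ hxu
  have tv := ht v
  have tx := ht x
  have tu := ht u
  have hadm : (inc H K).Adm v x u w' u m' := by
    refine ⟨hvx, hxu, hxw, hvu, hvm, ?_, ?_, ?_, ?_⟩
    · rw [hs] at *; omega
    · rw [hs] at *; omega
    · rw [hs] at *; omega
    · rw [hs] at *; omega
  -- the collineations
  obtain ⟨L1, c1, p1, l1⟩ := hH G H K a b c h ξ hξ
  obtain ⟨L2, c2, p2, l2⟩ := hH G H K a b c h (ξ * ν) (K.mul_mem hξ hν)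
  obtain ⟨L3, c3, p3, l3⟩ := hH G H K a b c h ν hν
  obtain ⟨M1, -, q1, -⟩ := hH G H K a b c h ξ⁻¹ hξ'
  obtain ⟨M2, -, q2, -⟩ := hH G H K a b c h (ξ * ν)⁻¹ (K.inv_mem (K.mul_mem hξ hν))
  obtain ⟨M3, -, q3, -⟩ := hH G H K a b c h ν⁻¹ (K.inv_mem hν)
  have s1 : ∀ y z : Pt H, iota (y.1 * ξ⁻¹) = z.1 → L1.2 z = y := fun y z e =>
    M1.1.injective (Subtype.ext (by rw [q1, q1, l1, e]))
  have s2 : ∀ y z : Pt H, iota (y.1 * (ξ * ν)⁻¹) = z.1 → L2.2 z = y := fun y z e =>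
    M2.1.injective (Subtype.ext (by rw [q2, q2, l2, e]))
  have s3 : ∀ y z : Pt H, iota (y.1 * ν⁻¹) = z.1 → L3.2 z = y := fun y z e =>
    M3.1.injective (Subtype.ext (by rw [q3, q3, l3, e]))
  have r2 : ∀ y z : Pt H, iota (y.1 * (ξ * ν)) = z.1 → L2.1⁻¹ z = y := fun y z e => by
    rw [Perm.inv_eq_iff_eq]
    exact Subtype.ext (by rw [p2, e])
  refine ⟨L1 * L2⁻¹ * L3, hadm, ⟨hg.col_mul (hg.col_mul c1 (hg.col_inv c2)) c3, ?_, ?_⟩, ?_⟩
  · -- points on `x`
    intro y hy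
    obtain ⟨h1, y0, h2, -, -⟩ := pt_mul hI hR hG h hy hξ' hxξ'
    show L1.1 (L2.1⁻¹ (L3.1 y)) = y
    have h3 : L2.1⁻¹ (L3.1 y) = y0 := by
      refine r2 _ _ ?_
      rw [p3, h2]
      congr 1
      group
    rw [h3]
    refine Subtype.ext ?_
    rw [p1, h2, inv_mul_cancel_right]
    exact iota_self y.2.2.1
  · -- lines through `v`
    intro l hl
    obtain ⟨h1, l0, h2, -, -⟩ := pt_mul hI hR hG h hl hν hvν
    show L1.2 (L2.2⁻¹ (L3.2 l)) = l
    have h3 : L3.2 l = l0 := by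
      refine s3 _ _ ?_
      rw [h2, mul_inv_cancel_right]
      exact iota_self l.2.2.1
    have h4 : L2.2⁻¹ l0 = M1.1 l := by
      rw [Perm.inv_eq_iff_eq]
      refine (s2 _ _ ?_).symm
      rw [h2, q1]
      congr 1
      group
    rw [h3, h4]
    refine s1 _ _ ?_
    rw [q1]
  · -- points of the line `u`
    intro y hyx hyu
    show L1.1 (L2.1⁻¹ (L3.1 y)) = (inc H K).fm u w' u m' y
    have j1 := hg.perp_st _ _ hyu
    have j2 := hg.perp_st _ _ hvm
    have ty := ht y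
    have tm := ht m'
    have tw := ht w'
    have k1 : ¬ (inc H K).st u y := by rw [hs] at *; omega
    have k2 : (inc H K).st m' u := by rw [hs] at *; omega
    obtain ⟨p, hp⟩ : ∃ p, p = (inc H K).pr u m' y := ⟨_, rfl⟩
    have k3 := hg.pr_st k1 k2
    have k4 := hg.pr_perp k1 k2
    rw [← hp] at k3 k4
    have hyu' : ((inc H K).cr y u).1 = y.1 * u.1 := hcr' y u hyu
    have hpv : p.1 = iota (y.1 * ν) := by
      rw [hp]
      show ((inc H K).cr ((inc H K).cr y u) m').1 = _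
      rw [hcr _ _ (hg.pr_line k1 k2), hyu', hm]
      congr 1
      calc y.1 * u.1 * (u.1 * ν) = y.1 * (u.1 * u.1) * ν := by group
        _ = y.1 * ν := by rw [uu, mul_one]
    have tp := ht p
    have k5 : ¬ (inc H K).st p w' := by rw [hs] at *; omega
    obtain ⟨n1, hn1⟩ : ∃ n1, n1 = (inc H K).cr p w' := ⟨_, rfl⟩
    have k6 : (inc H K).perp p n1 := by rw [hn1]; exact hg.cr_l _ _ k5
    have k7 : (inc H K).perp w' n1 := by rw [hn1]; exact hg.cr_r _ _ k5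
    have k8 : (inc H K).perp n1 w' := hg.perp_symm _ _ k7
    have j6 := hg.perp_st _ _ k6
    have j7 := hg.perp_st _ _ k7
    have tn := ht n1
    have hx' : ((inc H K).cr n1 w').1 = n1.1 * w'.1 := hcr' _ _ k8
    obtain ⟨x', hx''⟩ : ∃ x', x' = (inc H K).cr n1 w' := ⟨_, rfl⟩
    rw [← hx'', hw] at hx'
    have k9 : ¬ (inc H K).st n1 m' := by rw [hs] at *; omega
    have k10 : p = (inc H K).cr n1 m' :=
      hg.uniq _ _ _ k9 (hg.perp_symm _ _ k6) (hg.perp_symm _ _ k4)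
    have k11 : ¬ (inc H K).st n1 u := by rw [hs] at *; omega
    have h1 : L3.1 y = p := Subtype.ext (by rw [p3, hpv])
    have h2 : L2.1⁻¹ p = x' := by
      refine r2 _ _ ?_
      rw [k10, hcr _ _ k9, hx', hm]
      congr 1
      group
    rw [h1, h2]
    refine Subtype.ext ?_
    show _ = ((inc H K).cr ((inc H K).cr ((inc H K).pr u m' y) w') u).1
    rw [← hp, ← hn1, hcr _ _ k11, p1, hx']
    congr 1
    group

end Pool.Agent.FourGp.H12
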